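import Pool.Agent.N774.PI.Neg

/-!
# The Penrose inequality for data with several ends: spherically symmetric metrics and rotation averages

`M = ℝ³ \ {0}` carries the metric `g = φ⁴ δ`, `φ(x) = f(|x|)`, with two ends (`|x| → ∞`, the
special end, asymptotically flat of total mass `m`, and `|x| → 0`, where the area radius
`|x| f(|x|)²` tends to infinity). The symmetric tensor `h` is not symmetric under rotations, and the
dominant energy condition holds. The inequality `m ≥ √(A/16π)` is proved if every sphere of
symmetry with positive mean curvature satisfies one of the following conditions.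

* `Fluct`: the variance of the trace of `h` is at most the mean square distance of `h` from its
  average over all rotations. This holds for instance if the trace of `h` is constant on the sphere,
  or if the trace of the restriction of `h` to the sphere is constant on it, or if
  `h(ν, ν) + κ tr_S h` is constant on it for some `κ ≥ 1/4`; nothing is assumed on the other
  components of `h`.
* `NegUntrapped`: the scalar curvature of `g` is negative on the sphere and the sphere is not trapped
  at any point; there is no condition on the fluctuations of `h`.

The mass aspect need not be monotone along any path of points.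

Proof. The mean value over the sphere of the divergence of a tangential field is zero, since it is a
sum of derivatives along rotations. So the mean value `p` of `tr_S h` and the mean value of
`h(ν, ν)` satisfy the radial constraint equation with the mean value of `J(ν)`, which is bounded by
the mean energy density, and the condition says that the mean energy density is at most the energy
density of the averaged data. The mass aspect of the averaged data is monotone outside the last
sphere which is trapped in the mean. (The setting and the one dimensional argument are those of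
`SphericalMetric` on this page, by helpers 795, 814, 901, 655, 531, 329, 281.)
-/

set_option autoImplicit false

namespace Pool.Agent.Results.MP_ede089_mp.RotationAverages

open Pool.Agent.N795.PI Pool.Agent.N774.PIA Filter Topology MeasureTheory

/-- The main theorem. -/
theorem result (f : ℝ → ℝ) (h : Fin 3 → Fin 3 → E3 → ℝ) (m : ℝ) (D : IsData f h m)
    (hinner : Tendsto (fun t => t * f t ^ 2) (𝓝[>] 0) atTop)
    (hfl : ∀ t : ℝ, 0 < t → 0 < ww f t →
      Fluct (rad f) h t ∨ NegUntrapped f h t ∨
      (∃ c : ℝ, ∀ x : E3, ‖x‖ = t → trG (rad f) h x = c) ∨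
      (∃ c : ℝ, ∀ x : E3, ‖x‖ = t → trS (rad f) h x = c) ∨
      ∃ κ c : ℝ, 1 / 4 ≤ κ ∧ ∀ x : E3, ‖x‖ = t →
        hnn (rad f) h x + κ * trS (rad f) h x = c) :
    (∃ t1 : ℝ, 0 < t1 ∧ 2 * ww f t1 ≤ t1 * f t1 ^ 2 * |mean (trS (rad f) h) t1| ∧
      (∀ t, t1 < t → t * f t ^ 2 * |mean (trS (rad f) h) t| < 2 * ww f t) ∧
      t1 * f t1 ^ 2 / 2 ≤ m) ∧
    ∀ A : ℝ, (∀ t : ℝ, 0 < t → A ≤ 4 * Real.pi * (t * f t ^ 2) ^ 2) →
      Real.sqrt (A / (16 * Real.pi)) ≤ m := by
  have hf := D.smoothRad
  have hh := D.smoothTen
  have hfl' : ∀ t : ℝ, 0 < t → 0 < ww f t → Fluct (rad f) h t ∨ NegUntrapped f h t := by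
    intro t ht hw
    rcases hfl t ht hw with hc | hc | ⟨c, hc⟩ | hc | ⟨κ, c, hκ, hc⟩
    · exact Or.inl hc
    · exact Or.inr hc
    · refine Or.inl (fluct_of hf hh ht (Or.inl ⟨1, c, by norm_num, fun x hx => ?_⟩))
      rw [one_mul, ← trG_eq]
      exact hc x hx
    · exact Or.inl (fluct_of hf hh ht (Or.inr hc))
    · exact Or.inl (fluct_of hf hh ht (Or.inl ⟨κ, c, hκ, hc⟩))
  obtain ⟨t1, ht1, htr, haft, hm⟩ := main2 D hinner hfl'
  refine ⟨⟨t1, ht1, htr, haft, hm⟩, fun A hA => ?_⟩
  have hF := D.pos t1 ht1
  exact final_A (by positivity) hm (hA t1 ht1)

end Pool.Agent.Results.MP_ede089_mp.RotationAverages
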