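import Pool.Agent.N795.PI.Main
import Pool.Agent.N531.PIRad
import Pool.Agent.N329.PIAlg
import Pool.Agent.N655.PIJnu
import Pool.Agent.N814.PIOde
import Pool.Agent.N281.PIAdm

set_option autoImplicit false

/-!
# The Penrose inequality for data with several ends: spherically symmetric metrics

`M = ℝ³ \ {0}` carries the metric `g = φ⁴ δ`, `φ(x) = f(|x|)`, with two ends (`|x| → ∞`, the
special end, asymptotically flat of total mass `m`, and `|x| → 0`, where the area radius
`|x| f(|x|)²` tends to infinity). The symmetric tensor `h` is arbitrary (not symmetric under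
rotations) and the dominant energy condition holds. The inequality `m ≥ √(A/16π)` is proved if

* the trace of `h` over the spheres of symmetry has a zero on each sphere, or
* along one ray the product of this trace with the divergence of the tangential part of `h(x, ·)`
  is nonnegative (for instance if the radial direction is a principal direction of `h`), or
* more generally if there is a path of points along which the mass aspect is monotone.
-/

namespace Pool.Agent.Results.MP_ede089_mp.SphericalMetric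

open Pool.Agent.N795.PI Filter Topology MeasureTheory

/-- If the radial direction is principal for `h`, the divergence of the tangential part is `0`. -/
theorem divV_eq_zero {h : Fin 3 → Fin 3 → E3 → ℝ}
    (hp : ∀ x : E3, x ≠ 0 → ∀ i, ∑ j, h i j x * x j = lam h x * x i) {x : E3} (hx : x ≠ 0) :
    divV h x = 0 := by
  rw [divV]
  refine Finset.sum_eq_zero fun i _ => ?_
  have h1 : tanV h i =ᶠ[𝓝 x] fun _ => 0 := by
    filter_upwards [isOpen_ne.mem_nhds hx] with y hy
    rw [tanV, hp y hy i, sub_self]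
  rw [pd, h1.fderiv_eq]
  simp

/-- The main theorem. -/
theorem result (f : ℝ → ℝ) (h : Fin 3 → Fin 3 → E3 → ℝ) (m : ℝ) (D : IsData f h m)
    (hinner : Tendsto (fun t => t * f t ^ 2) (𝓝[>] 0) atTop) :
    (∀ p : ℝ → ℝ, HasPath f h p →
      ∃ t1 : ℝ, 0 < t1 ∧ (∀ t, t1 < t → t * f t ^ 2 * |p t| < 2 * ww f t) ∧
        t1 * f t1 ^ 2 / 2 ≤ m) ∧
    (((∃ p : ℝ → ℝ, HasPath f h p) ∨
      (∀ t : ℝ, 0 < t → ∃ x : E3, ‖x‖ = t ∧ trS (rad f) h x = 0) ∨
      (∃ u : E3, ‖u‖ = 1 ∧ ∀ t : ℝ, 0 < t → 0 ≤ trS (rad f) h (t • u) * divV h (t • u)) ∨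
      (∀ x : E3, x ≠ 0 → ∀ i, ∑ j, h i j x * x j = lam h x * x i)) →
      ∀ A : ℝ, (∀ t : ℝ, 0 < t → A ≤ 4 * Real.pi * (t * f t ^ 2) ^ 2) →
        Real.sqrt (A / (16 * Real.pi)) ≤ m) := by
  have key : ∀ p : ℝ → ℝ, HasPath f h p →
      ∃ t1 : ℝ, 0 < t1 ∧ (∀ t, t1 < t → t * f t ^ 2 * |p t| < 2 * ww f t) ∧
        t1 * f t1 ^ 2 / 2 ≤ m :=
    fun p hp => path_thm rad_pf alg_pf jnu_pf ode_pf adm_pf D hinner hp
  have ray : ∀ u : E3, ‖u‖ = 1 →
      (∀ t : ℝ, 0 < t → 0 ≤ trS (rad f) h (t • u) * divV h (t • u)) →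
      ∃ p : ℝ → ℝ, HasPath f h p := fun u hu hr => ⟨_, hasPath_ray jnu_pf D hu hr⟩
  refine ⟨key, fun hc A hA => ?_⟩
  have hpath : ∃ p : ℝ → ℝ, HasPath f h p := by
    rcases hc with hc | hc | ⟨u, hu, hc⟩ | hc
    · exact hc
    · exact ⟨_, hasPath_zero hc⟩
    · exact ray u hu hc
    · refine ray (EuclideanSpace.single 0 1) (by simp) fun t ht => ?_
      have hne : t • (EuclideanSpace.single 0 1 : E3) ≠ 0 := by
        rw [Ne, smul_eq_zero, not_or]
        refine ⟨ht.ne', ?_⟩
        intro h0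
        have := congrArg (fun x : E3 => ‖x‖) h0
        simp at this
      rw [divV_eq_zero hc hne, mul_zero]
  obtain ⟨p, hp⟩ := hpath
  obtain ⟨t1, ht1, -, hm⟩ := key p hp
  have hf := D.pos t1 ht1
  exact final_A (by positivity) hm (hA t1 ht1)

end Pool.Agent.Results.MP_ede089_mp.SphericalMetric
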